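import Mathlib

/-!
# A 23-regular graph on 402 vertices whose maximal independent sets pairwise intersect

Helper file (not a hand-in): the answer to Berge's question is probably known (C. Payan, 1977/78).
-/

set_option autoImplicit false

namespace Pool.Agent.Helper225.Berge

/-- The 402 vertices: nested threefold structure.  `inl (i,j,l,s)`: eleven twins over each of the 27
leaves; `inr (inl (i,j,l))`: one pendant-like vertex at each leaf; `inr (inr (inl (i,j,s)))`: seven
vertices of the first level core; `inr (inr (inr (i,s)))`: five vertices of the second level core. -/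
abbrev W : Type :=
  (Fin 3 × Fin 3 × Fin 3 × Fin 11) ⊕ ((Fin 3 × Fin 3 × Fin 3) ⊕ ((Fin 3 × Fin 3 × Fin 7) ⊕ (Fin 3 × Fin 5)))

/-- Adjacency of the 23-regular graph `H` whose complement is the counterexample. -/
def adj : W → W → Bool
  | .inl (i, j, l, _), .inl (i', j', l', _) => i == i' && j == j' && l != l'
  | .inl (i, j, l, _), .inr (.inl (i', j', l')) => i == i' && j == j' && l == l'
  | .inr (.inl (i', j', l')), .inl (i, j, l, _) => i == i' && j == j' && l == l'
  | .inr (.inl (i, j, _)), .inr (.inr (.inl (i', j', _))) => i == i' && j == j'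
  | .inr (.inr (.inl (i', j', _))), .inr (.inl (i, j, _)) => i == i' && j == j'
  | .inr (.inl (i, _, _)), .inr (.inr (.inr (i', _))) => i == i'
  | .inr (.inr (.inr (i', _))), .inr (.inl (i, _, _)) => i == i'
  | .inr (.inr (.inl (i, j, s))), .inr (.inr (.inl (i', j', s'))) => i == i' && !(j == j' && s == s')
  | .inr (.inr (.inr (i, s))), .inr (.inr (.inr (i', s'))) => !(i == i' && s == s')
  | _, _ => false

theorem adj_symm : ∀ x y : W, adj x y = true → adj y x = true := by
  rintro (⟨i, j, l, s⟩ | ⟨i, j, l⟩ | ⟨i, j, s⟩ | ⟨i, s⟩) (⟨i', j', l', s'⟩ | ⟨i', j', l'⟩ | ⟨i', j', s'⟩ | ⟨i', s'⟩) h <;>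
    simp only [adj, Bool.and_eq_true, Bool.not_eq_true', beq_iff_eq, bne_iff_ne, ne_eq,
      Bool.and_eq_false_iff, beq_eq_false_iff_ne, Bool.false_eq_true] at h ⊢ <;>
    first
      | exact h
      | exact ⟨⟨h.1.1.symm, h.1.2.symm⟩, fun e => h.2 e.symm⟩
      | exact ⟨h.1.symm, h.2.imp (fun k e => k e.symm) (fun k e => k e.symm)⟩
      | exact h.imp (fun k e => k e.symm) (fun k e => k e.symm)

theorem adj_irrefl : ∀ x : W, adj x x = false := by
  rintro (⟨i, j, l, s⟩ | ⟨i, j, l⟩ | ⟨i, j, s⟩ | ⟨i, s⟩) <;> simp [adj]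

/-- The 23-regular graph. -/
def H : SimpleGraph W where
  Adj x y := adj x y = true
  symm := ⟨fun x y h => adj_symm x y h⟩
  loopless := ⟨fun x h => by simp [adj_irrefl] at h⟩

instance : DecidableRel H.Adj := fun x y => inferInstanceAs (Decidable (adj x y = true))

theorem deg_eq : ∀ x : W, (Finset.univ.filter (fun y : W => adj x y = true)).card = 23 := by
  decide +kernel

theorem H_adj (x y : W) : H.Adj x y ↔ adj x y = true := Iff.rfl

theorem H_regular : H.IsRegularOfDegree 23 := by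
  intro x
  rw [← SimpleGraph.card_neighborFinset_eq_degree, ← deg_eq x]
  congr 1
  ext y
  simp [SimpleGraph.mem_neighborFinset, H_adj]

/-- A maximal clique of the complement of `H` contains no two adjacent vertices of `H`. -/
theorem no_adj {K : Set W} (hK : Maximal (Hᶜ).IsClique K) {x y : W} (hx : x ∈ K) (hy : y ∈ K) :
    adj x y = false := by
  by_cases h : x = y
  · subst h; exact adj_irrefl x
  · have := hK.prop hx hy h
    rw [SimpleGraph.compl_adj, H_adj] at this
    simpa using this.2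

/-- A vertex outside a maximal clique of the complement of `H` has an `H`-neighbour in it. -/
theorem has_nbr {K : Set W} (hK : Maximal (Hᶜ).IsClique K) {x : W} (hx : x ∉ K) :
    ∃ y ∈ K, adj x y = true := by
  by_contra hcon
  push Not at hcon
  have h1 : (Hᶜ).IsClique (insert x K) := by
    rw [SimpleGraph.isClique_insert]
    refine ⟨hK.prop, fun y hy hxy => ?_⟩
    rw [SimpleGraph.compl_adj, H_adj]
    exact ⟨hxy, hcon y hy⟩
  have h2 := hK.le_of_ge h1 (Set.subset_insert x K)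
  exact hx (h2 (Set.mem_insert x K))

/-- Among the second level core at most one block meets `K`. -/
theorem level2 {K : Set W} (hK : Maximal (Hᶜ).IsClique K) :
    ∃ i₀ : Fin 3, ∀ i s, i ≠ i₀ → (Sum.inr (Sum.inr (Sum.inr (i, s))) : W) ∉ K := by
  by_cases h : ∃ i s, (Sum.inr (Sum.inr (Sum.inr (i, s))) : W) ∈ K
  · obtain ⟨i₀, s₀, h0⟩ := h
    refine ⟨i₀, fun i s hi hmem => ?_⟩
    have := no_adj hK hmem h0
    simp [adj, hi] at this
  · push Not at h
    exact ⟨0, fun i s _ => h i s⟩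

theorem level1 {K : Set W} (hK : Maximal (Hᶜ).IsClique K) (i : Fin 3) :
    ∃ j₀ : Fin 3, ∀ j s, j ≠ j₀ → (Sum.inr (Sum.inr (Sum.inl (i, j, s))) : W) ∉ K := by
  by_cases h : ∃ j s, (Sum.inr (Sum.inr (Sum.inl (i, j, s))) : W) ∈ K
  · obtain ⟨j₀, s₀, h0⟩ := h
    refine ⟨j₀, fun j s hj hmem => ?_⟩
    have := no_adj hK hmem h0
    simp [adj, hj] at this
  · push Not at h
    exact ⟨0, fun j s _ => h j s⟩

theorem level0 {K : Set W} (hK : Maximal (Hᶜ).IsClique K) (i j : Fin 3) :
    ∃ l₀ : Fin 3, ∀ l s, l ≠ l₀ → (Sum.inl (i, j, l, s) : W) ∉ K := by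
  by_cases h : ∃ l s, (Sum.inl (i, j, l, s) : W) ∈ K
  · obtain ⟨l₀, s₀, h0⟩ := h
    refine ⟨l₀, fun l s hl hmem => ?_⟩
    have := no_adj hK hmem h0
    simp [adj, hl] at this
  · push Not at h
    exact ⟨0, fun l s _ => h l s⟩

theorem mem_of {K : Set W} (hK : Maximal (Hᶜ).IsClique K) (i j l : Fin 3)
    (h2 : ∀ s, (Sum.inr (Sum.inr (Sum.inr (i, s))) : W) ∉ K)
    (h1 : ∀ s, (Sum.inr (Sum.inr (Sum.inl (i, j, s))) : W) ∉ K)
    (h0 : ∀ s, (Sum.inl (i, j, l, s) : W) ∉ K) :
    (Sum.inr (Sum.inl (i, j, l)) : W) ∈ K := by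
  by_contra hmem
  obtain ⟨y, hy, hadj⟩ := has_nbr hK hmem
  rcases y with ⟨i', j', l', s'⟩ | ⟨i', j', l'⟩ | ⟨i', j', s'⟩ | ⟨i', s'⟩
  · simp only [adj, Bool.and_eq_true, beq_iff_eq] at hadj
    obtain ⟨⟨rfl, rfl⟩, rfl⟩ := hadj
    exact h0 s' hy
  · simp [adj] at hadj
  · simp only [adj, Bool.and_eq_true, beq_iff_eq] at hadj
    obtain ⟨rfl, rfl⟩ := hadj
    exact h1 s' hy
  · simp only [adj, beq_iff_eq] at hadj
    subst hadj
    exact h2 s' hy

theorem third (a b : Fin 3) : ∃ c : Fin 3, c ≠ a ∧ c ≠ b := by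
  revert a b; decide

/-- Any two maximal cliques of the complement of `H` share a vertex. -/
theorem meet {K L : Set W} (hK : Maximal (Hᶜ).IsClique K) (hL : Maximal (Hᶜ).IsClique L) :
    ∃ x, x ∈ K ∧ x ∈ L := by
  obtain ⟨a, ha⟩ := level2 hK
  obtain ⟨a', ha'⟩ := level2 hL
  obtain ⟨i, hi, hi'⟩ := third a a'
  obtain ⟨b, hb⟩ := level1 hK i
  obtain ⟨b', hb'⟩ := level1 hL i
  obtain ⟨j, hj, hj'⟩ := third b b'
  obtain ⟨c, hc⟩ := level0 hK i j
  obtain ⟨c', hc'⟩ := level0 hL i j
  obtain ⟨l, hl, hl'⟩ := third c c'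
  exact ⟨Sum.inr (Sum.inl (i, j, l)),
    mem_of hK i j l (fun s => ha i s hi) (fun s => hb j s hj) (fun s => hc l s hl),
    mem_of hL i j l (fun s => ha' i s hi') (fun s => hb' j s hj') (fun s => hc' l s hl')⟩

/-- Not every incomplete finite regular graph has two disjoint maximal cliques. -/
theorem not_two_disjoint :
    ¬ (∀ (V : Type) [Fintype V] [DecidableEq V] (G : SimpleGraph V) [DecidableRel G.Adj] (d : ℕ),
      G.IsRegularOfDegree d → G ≠ ⊤ →
        ∃ s t : Set V, Maximal G.IsClique s ∧ Maximal G.IsClique t ∧ Disjoint s t) := by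
  intro hall
  have hreg := H_regular.compl
  have hne : (Hᶜ) ≠ ⊤ := by
    intro h
    have h1 : H = ⊥ := by rw [← compl_compl H, h, compl_top]
    have h2 : H.Adj (Sum.inl (0, 0, 0, 0)) (Sum.inr (Sum.inl (0, 0, 0))) := by
      rw [H_adj]; decide
    rw [h1] at h2
    exact h2
  obtain ⟨s, t, hs, ht, hst⟩ := hall W (Hᶜ) _ hreg hne
  obtain ⟨x, hx1, hx2⟩ := meet hs ht
  exact Set.disjoint_left.1 hst hx1 hx2

end Pool.Agent.Helper225.Berge
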